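import Mathlib

set_option autoImplicit false

namespace Pool.Agent.Results.MP_9df05e_al.Nil

/-- p-conjugacy for a product `m`; the case `a = b` comes from the adjoined identity. -/
def PConj {S : Type} (m : S → S → S) (a b : S) : Prop :=
  a = b ∨ ∃ u v, a = m u v ∧ b = m v u

def S : Type := Fin 8

instance : DecidableEq S := inferInstanceAs (DecidableEq (Fin 8))
instance : Fintype S := inferInstanceAs (Fintype (Fin 8))

def e (n : Fin 8) : S := n

instance : Semigroup S where
  mul x y := if x = e 1 ∧ y = e 2 then e 5 else if x = e 2 ∧ y = e 1 ∨ x = e 3 ∧ y = e 4 then e 6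
    else if x = e 4 ∧ y = e 3 then e 7 else e 0
  mul_assoc := by decide +kernel

theorem nil : ∀ x a y : S, x * a * y = e 0 := by decide +kernel

theorem result : ∃ (T : Type) (_ : Semigroup T), Finite T ∧
    (∀ a x y z : T, PConj (fun u v => u * a * v) x y → PConj (fun u v => u * a * v) y z →
      PConj (fun u v => u * a * v) x z) ∧
    ∃ x y z : T, PConj (· * ·) x y ∧ PConj (· * ·) y z ∧ ¬ PConj (· * ·) x z := by
  refine ⟨S, inferInstance, inferInstance, fun a x y z h1 h2 => ?_, e 5, e 6, e 7,
    Or.inr ⟨e 1, e 2, rfl, rfl⟩, Or.inr ⟨e 3, e 4, rfl, rfl⟩, by unfold PConj; decide +kernel⟩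
  have key : ∀ x y : S, PConj (fun u v => u * a * v) x y → x = y := by
    rintro x y (h | ⟨u, v, h, h'⟩)
    · exact h
    · exact (h.trans (nil _ _ _)).trans (h'.trans (nil _ _ _)).symm
  exact Or.inl ((key x y h1).trans (key y z h2))

end Pool.Agent.Results.MP_9df05e_al.Nil
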